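import Pool.Agent.Helper60.NF.Frm

/-!
# B1 with nearly uniform words: few inputs have two equal elements in the rows below `n`
-/

set_option autoImplicit false

namespace Pool.Agent.Helper43.NBP

open Pool.Agent.Helper19.NF (CF)

section fibres

variable {Λ F W B : Type}

/-- The blocks with a given word, from the places outside of `X` and the residue. -/
theorem card_fibre_le [Fintype Λ] [Finite F] {ρ h : ℕ} (dec : (Λ → F) → W) (res : Finset Λ → (Λ → F) → Fin ρ)
    (inj : ∀ X : Finset Λ, X.card = h → ∀ y y' : Λ → F, (∀ l, l ∉ X → y l = y' l) → dec y = dec y' →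
      res X y = res X y' → y = y') (hh : h ≤ Fintype.card Λ) (w : W) :
    Nat.card {y : Λ → F // dec y = w} ≤ Nat.card F ^ (Fintype.card Λ - h) * ρ := by
  classical
  obtain ⟨X, -, hX⟩ := Finset.exists_subset_card_eq (s := (Finset.univ : Finset Λ))
    (n := h) (by simpa using hh)
  have h1 : Nat.card (({l : Λ // l ∉ X} → F) × Fin ρ) = Nat.card F ^ (Fintype.card Λ - h) * ρ := by
    rw [Nat.card_prod, Nat.card_fun, Nat.card_fin,
      Nat.card_eq_fintype_card (α := {l : Λ // l ∉ X}), Fintype.card_subtype_compl, Fintype.card_coe, hX]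
  rw [← h1]
  refine Nat.card_le_card_of_injective (fun y => (fun l => y.1 l.1, res X y.1)) ?_
  rintro ⟨y, hy⟩ ⟨y', hy'⟩ h2
  apply Subtype.ext
  have h3 := congrArg (fun p : ({l : Λ // l ∉ X} → F) × Fin ρ => p.1) h2
  have h4 := congrArg (fun p : ({l : Λ // l ∉ X} → F) × Fin ρ => p.2) h2
  exact inj X hX y y' (fun l hl => congrFun h3 ⟨l, hl⟩) (hy.trans hy'.symm) h4

/-- The inputs with a given table of words. -/
theorem card_table_le [Finite B] [Finite Λ] [Finite F] {c : ℕ} (dec : (Λ → F) → W)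
    (hc : ∀ w, Nat.card {y : Λ → F // dec y = w} ≤ c) (I : B → W) :
    Nat.card {J : B × Λ → F // (fun b => dec fun l => J (b, l)) = I} ≤ c ^ Nat.card B := by
  classical
  have := Fintype.ofFinite B
  have := Fintype.ofFinite Λ
  have := Fintype.ofFinite F
  have e : {J : B × Λ → F // (fun b => dec fun l => J (b, l)) = I} ≃
      ∀ b : B, {y : Λ → F // dec y = I b} :=
    { toFun := fun J b => ⟨fun l => J.1 (b, l), congrFun J.2 b⟩
      invFun := fun f => ⟨fun x => (f x.1).1 x.2, funext fun b => (f b).2⟩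
      left_inv := fun J => rfl
      right_inv := fun f => rfl }
  rw [Nat.card_congr e, Nat.card_pi]
  calc ∏ b : B, Nat.card {y : Λ → F // dec y = I b} ≤ ∏ _b : B, c :=
        Finset.prod_le_prod' fun b _ => hc (I b)
    _ = c ^ Nat.card B := by rw [Finset.prod_const, Finset.card_univ, Nat.card_eq_fintype_card]

/-- The inputs whose table of words has a property. -/
theorem card_words_le [Finite B] [Finite Λ] [Finite F] [Finite W] {c : ℕ} (dec : (Λ → F) → W)
    (hc : ∀ w, Nat.card {y : Λ → F // dec y = w} ≤ c) (p : (B → W) → Prop) :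
    Nat.card {J : B × Λ → F // p fun b => dec fun l => J (b, l)} ≤ Nat.card {I // p I} * c ^ Nat.card B := by
  classical
  have := Fintype.ofFinite {I : B → W // p I}
  have e : {J : B × Λ → F // p fun b => dec fun l => J (b, l)} ≃
      Σ I : {I : B → W // p I}, {J : B × Λ → F // (fun b => dec fun l => J (b, l)) = I.1} :=
    { toFun := fun J => ⟨⟨_, J.2⟩, ⟨J.1, rfl⟩⟩
      invFun := fun x => ⟨x.2.1, by rw [x.2.2]; exact x.1.2⟩
      left_inv := fun J => rfl
      right_inv := by
        rintro ⟨⟨I, hI⟩, ⟨J, hJ⟩⟩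
        simp only at hJ
        subst hJ
        rfl }
  rw [Nat.card_congr e, Nat.card_sigma]
  calc ∑ I : {I : B → W // p I}, Nat.card {J : B × Λ → F // (fun b => dec fun l => J (b, l)) = I.1}
      ≤ ∑ _I : {I : B → W // p I}, c ^ Nat.card B :=
        Finset.sum_le_sum fun I _ => card_table_le dec hc I.1
    _ = Nat.card {I // p I} * c ^ Nat.card B := by
        rw [Finset.sum_const, Finset.card_univ, smul_eq_mul, Nat.card_eq_fintype_card (α := {I : B → W // p I})]

end fibres

/-- B1 with the factor `κ`: few inputs have two equal elements in the rows below `n`. -/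
theorem card_not_CF {U D B Λ F : Type} [Fintype U] [Fintype D] [AddCommGroup B] [Fintype B] [Fintype Λ] [Fintype F]
    [Nonempty D] {ρ h : ℕ} {κ : ℝ} (dec : (Λ → F) → D → B) (res : Finset Λ → (Λ → F) → Fin ρ)
    (inj : ∀ X : Finset Λ, X.card = h → ∀ y y' : Λ → F, (∀ l, l ∉ X → y l = y' l) → dec y = dec y' →
      res X y = res X y' → y = y')
    (card : (ρ : ℝ) * Nat.card (D → B) ≤ κ * (Nat.card F : ℝ) ^ h)
    (hh : h ≤ Fintype.card Λ) (g : D → Equiv.Perm U) (x0 : U → B) (h0 : Function.Injective x0) (n : ℕ) :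
    (Nat.card {J : B × Λ → F // ¬ CF g x0 n fun b => dec fun l => J (b, l)} : ℝ) * Fintype.card B ≤
      κ ^ Fintype.card B * ((n * Fintype.card U) ^ 2 * Nat.card (B × Λ → F)) := by
  classical
  obtain ⟨c, hc⟩ : ∃ c, c = Nat.card F ^ (Fintype.card Λ - h) * ρ := ⟨_, rfl⟩
  have h1 := card_words_le (B := B) dec (c := c)
    (fun w => by rw [hc]; exact card_fibre_le dec res inj hh w) fun I => ¬ CF g x0 n I
  have h2 := Pool.Agent.Helper60.NFF.card_not_CF g x0 h0 n
  -- the number of inputs with a given table of words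
  have h3 : (c : ℝ) * Nat.card (D → B) ≤ κ * (Nat.card F : ℝ) ^ Fintype.card Λ := by
    have h4 : (Nat.card F : ℝ) ^ Fintype.card Λ =
        (Nat.card F : ℝ) ^ (Fintype.card Λ - h) * (Nat.card F : ℝ) ^ h := by
      rw [← pow_add, Nat.sub_add_cancel hh]
    rw [hc, h4]
    push_cast
    calc (Nat.card F : ℝ) ^ (Fintype.card Λ - h) * ρ * Nat.card (D → B)
        = (Nat.card F : ℝ) ^ (Fintype.card Λ - h) * (ρ * Nat.card (D → B)) := by ring
      _ ≤ (Nat.card F : ℝ) ^ (Fintype.card Λ - h) * (κ * (Nat.card F : ℝ) ^ h) :=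
          mul_le_mul_of_nonneg_left card (by positivity)
      _ = _ := by ring
  have h5 : (c : ℝ) ^ Fintype.card B * (Nat.card (B → D → B) : ℝ) ≤
      κ ^ Fintype.card B * (Nat.card (B × Λ → F) : ℝ) := by
    have h6 : (Nat.card (B → D → B) : ℝ) = (Nat.card (D → B) : ℝ) ^ Fintype.card B := by
      rw [Nat.card_fun, Nat.card_eq_fintype_card (α := B)]
      push_cast
      rfl
    have h7 : (Nat.card (B × Λ → F) : ℝ) = ((Nat.card F : ℝ) ^ Fintype.card Λ) ^ Fintype.card B := by
      rw [Nat.card_fun, Nat.card_prod, Nat.card_eq_fintype_card (α := B), Nat.card_eq_fintype_card (α := Λ),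
        mul_comm, pow_mul]
      push_cast
      rfl
    rw [h6, h7, ← mul_pow, ← mul_pow]
    exact pow_le_pow_left₀ (by positivity) h3 _
  have h1' : (Nat.card {J : B × Λ → F // ¬ CF g x0 n fun b => dec fun l => J (b, l)} : ℝ) ≤
      Nat.card {I : B → D → B // ¬ CF g x0 n I} * (c : ℝ) ^ Fintype.card B := by
    rw [Nat.card_eq_fintype_card (α := B)] at h1
    exact_mod_cast h1
  have h2' : (Nat.card {I : B → D → B // ¬ CF g x0 n I} : ℝ) * Fintype.card B ≤
      (n * Fintype.card U) ^ 2 * Nat.card (B → D → B) := by exact_mod_cast h2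
  calc (Nat.card {J : B × Λ → F // ¬ CF g x0 n fun b => dec fun l => J (b, l)} : ℝ) * Fintype.card B
      ≤ (Nat.card {I : B → D → B // ¬ CF g x0 n I} * (c : ℝ) ^ Fintype.card B) * Fintype.card B :=
        mul_le_mul_of_nonneg_right h1' (Nat.cast_nonneg _)
    _ = (Nat.card {I : B → D → B // ¬ CF g x0 n I} : ℝ) * Fintype.card B * (c : ℝ) ^ Fintype.card B := by ring
    _ ≤ (n * Fintype.card U) ^ 2 * Nat.card (B → D → B) * (c : ℝ) ^ Fintype.card B :=
        mul_le_mul_of_nonneg_right h2' (by positivity)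
    _ = (n * Fintype.card U) ^ 2 * ((c : ℝ) ^ Fintype.card B * Nat.card (B → D → B)) := by ring
    _ ≤ (n * Fintype.card U) ^ 2 * (κ ^ Fintype.card B * Nat.card (B × Λ → F)) :=
        mul_le_mul_of_nonneg_left h5 (by positivity)
    _ = _ := by ring

end Pool.Agent.Helper43.NBP
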